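import Pool.Agent.T9h88.IP.Spec
import Pool.Agent.T9h75.IO.VNum

/-!
# Truth of the clauses (several levels)
-/

set_option autoImplicit false

namespace Pool.Agent.T9h75.IP

open Pool.Agent.TH672 (Fm Str upd num digits varStr LogK)
open Pool.Agent.TH636.BC
open Pool.Agent.T9h6.BC (sz cl)
open Pool.Agent.T9h88.IO
open Pool.Agent.T9h88.IP
open Pool.Agent.T9h75.IO
open Pool.Agent.TH197.J1545 (digits_zero digits_num strs_cons)

/-- the symbol is one of the old symbols -/
def Old : At → Prop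
  | .op i _ _ _ _ => i < 38 ∨ 46 < i
  | _ => True

/-- all symbols of the clause are old -/
def OldC (c : Cl) : Prop := (∀ p ∈ c.prem, Old p) ∧ Old c.concl

section
variable (P : Fml) (κ b L w₀ : ℕ)

theorem I3_old {i : ℕ} (h : i < 38 ∨ 46 < i) (x y z t : ℕ) :
    I3 P κ b L w₀ i x y z t ↔ I P [] κ i x y z t := by
  unfold I3
  split <;> first | omega | exact Iff.rfl

theorem tr3_old {a : At} (h : Old a) (v : ℕ → ℕ) :
    Tr3 P κ b L w₀ v a ↔ a.Tr P [] κ v := by
  cases a with
  | op i x y z t => exact I3_old P κ b L w₀ h _ _ _ _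
  | _ => exact Iff.rfl

theorem cl3_old {c : Cl} (h : OldC c) (hc : c.Tr P [] κ) : ClTr3 P κ b L w₀ c := by
  intro v hv
  rw [tr3_old P κ b L w₀ h.2]
  exact hc v fun p hp => (tr3_old P κ b L w₀ (h.1 p hp) v).1 (hv p hp)

end

theorem old_kCl (c : ℕ) : ∀ q ∈ kCl c, OldC q := by
  intro q hq
  unfold kCl at hq
  rcases List.mem_cons.1 hq with rfl | hq
  · exact ⟨by simp [Old], by simp [Old, iK]⟩
  · obtain ⟨n, -, rfl⟩ := List.mem_map.1 hq
    refine ⟨?_, .inr (by unfold iK; omega)⟩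
    intro p hp
    simp only [List.mem_cons, List.not_mem_nil, or_false] at hp
    rcases hp with rfl | rfl
    · exact .inr (by unfold iK; omega)
    · trivial

theorem old_appCl (τ : List Bool) : ∀ q ∈ appCl τ, OldC q := by
  intro q hq
  unfold appCl at hq
  rcases List.mem_cons.1 hq with rfl | hq
  · exact ⟨by simp, .inr (by unfold iApp; omega)⟩
  · obtain ⟨n, -, rfl⟩ := List.mem_map.1 hq
    refine ⟨?_, .inr (by unfold iApp; omega)⟩
    intro p hp
    simp only [appStep, List.mem_cons, List.not_mem_nil, or_false] at hp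
    rcases hp with rfl | rfl
    · exact .inr (by unfold iApp; omega)
    · left
      split_ifs <;> decide

/-- boolean version -/
def oldB : At → Bool
  | .op i _ _ _ _ => decide (i < 38) || decide (46 < i)
  | _ => true

/-- boolean version -/
def oldCB (c : Cl) : Bool := c.prem.all oldB && oldB c.concl

theorem old_of {a : At} (h : oldB a = true) : Old a := by
  cases a with
  | op i x y z t => simpa [oldB, Old] using h
  | _ => trivial

theorem oldC_of {c : Cl} (h : oldCB c = true) : OldC c := by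
  unfold oldCB at h
  rw [Bool.and_eq_true, List.all_eq_true] at h
  exact ⟨fun p hp => old_of (h.1 p hp), old_of h.2⟩

theorem oldL_of {l : List Cl} (h : l.all oldCB = true) : ∀ c ∈ l, OldC c := by
  rw [List.all_eq_true] at h
  exact fun c hc => oldC_of (h c hc)

theorem old_tree : ∀ c ∈ clTree, OldC c := oldL_of (by decide)
theorem old_all : ∀ c ∈ clAll, OldC c := oldL_of (by decide)

theorem oldA_app (τ : List Bool) (x y : ℕ) : Old (o2 (iApp τ) x y) := .inr (by unfold iApp; omega)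
theorem oldA_K (k : ℕ) (x : ℕ) : Old (o1 (iK k) x) := .inr (by unfold iK; omega)

theorem old_str : ∀ c ∈ clStr, OldC c := by
  intro c hc
  unfold clStr at hc
  simp only [List.mem_cons, List.not_mem_nil, or_false] at hc
  rcases hc with rfl | rfl | rfl | rfl | rfl | rfl | rfl | rfl | rfl | rfl | rfl | rfl | rfl
  all_goals
    refine ⟨?_, by simp [Old, iVar, iStr, iStrs]⟩
    simp [Old, iNil, iNode, iDb0, iDb1, iVar, iStr, iStrs, iApp]
  all_goals try omega

theorem old_num (P : Fml) (κ : ℕ) : ∀ c ∈ clNum P κ, OldC c := by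
  intro c hc
  unfold clNum at hc
  simp only [List.mem_cons, List.not_mem_nil, or_false] at hc
  rcases hc with rfl | rfl | rfl | rfl | rfl | rfl | rfl | rfl | rfl | rfl | rfl | rfl | rfl |
    rfl | rfl | rfl | rfl | rfl | rfl | rfl | rfl | rfl | rfl | rfl | rfl | rfl | rfl | rfl
  all_goals
    constructor
    · intro p hp
      simp only [List.mem_cons, List.not_mem_nil, or_false] at hp <;>
      (rcases hp with rfl | rfl | rfl | rfl | rfl | rfl) <;>
      first | trivial | exact oldA_app .. | exact oldA_K .. | exact .inl (by decide)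
    · first | trivial | exact .inl (by decide)

theorem old_app (P : Fml) : ∀ c ∈ clApp P, OldC c := by
  intro q hq
  unfold clApp at hq
  obtain ⟨τ, -, h⟩ := List.mem_flatMap.1 hq
  exact old_appCl τ q h

theorem old_th : ∀ c ∈ clTh, OldC c := oldL_of (by decide)

/-- the old clauses -/
theorem clsB_tr (hTree : VTree) (hAll : VAll) (hStr : VStr) (hNum : VNum) (P : Fml) (κ : ℕ) :
    ∀ c ∈ clsB P κ, c.Tr P [] κ ∧ OldC c := by
  intro c hc
  unfold clsB at hc
  simp only [List.mem_append] at hc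
  have ht : ∀ c ∈ clTree, c.Tr P [] κ ∧ OldC c := fun c h => ⟨hTree P [] κ c h, old_tree c h⟩
  unfold clTree at ht
  simp only [List.mem_append] at ht
  have hn := hNum P [] κ
  simp only [List.mem_append] at hn
  rcases hc with ((((((((((h | h) | h) | h) | h) | h) | h) | h) | h) | h) | h) | h
  · exact ht c (by tauto)
  · exact ht c (by tauto)
  · exact ht c (by tauto)
  · exact ht c (by tauto)
  · exact ht c (by tauto)
  · exact ht c (by tauto)
  · exact ⟨hAll P [] κ c h, old_all c h⟩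
  · exact ⟨hStr P [] κ c h, old_str c h⟩
  · exact ⟨hn c (by tauto), old_num P κ c h⟩
  · exact ⟨hn c (by tauto), old_kCl κ c h⟩
  · exact ⟨hn c (by tauto), old_app P c h⟩
  · exact ⟨hn c (by tauto), old_th c h⟩

section
variable (P : Fml) (κ b L w₀ : ℕ)

theorem t3_app (τ : List Bool) (v : ℕ → ℕ) (x y : ℕ) :
    Tr3 P κ b L w₀ v (o2 (iApp τ) x y) ↔ v y = app (v x) τ :=
  (tr3_old P κ b L w₀ (oldA_app τ x y) v).trans (tr_app P [] κ τ v x y)

theorem t3_K (k : ℕ) (v : ℕ → ℕ) (x : ℕ) : Tr3 P κ b L w₀ v (o1 (iK k) x) ↔ v x = k :=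
  (tr3_old P κ b L w₀ (oldA_K k x) v).trans (tr_K P [] κ k v x)

theorem get3 {prem : List At} {v : ℕ → ℕ} (hv : ∀ p ∈ prem, Tr3 P κ b L w₀ v p) (τ : List Bool)
    (x y : ℕ) (h : o2 (iApp τ) x y ∈ prem) : v y = app (v x) τ :=
  (t3_app P κ b L w₀ τ v x y).1 (hv _ h)

theorem fI_eq (x a c : ℕ) : fI x a c = app (app (app (app 0 hd) (rep a)) (tlx x)) (digits c) := by
  rw [app_app, app_app, app_app, app_zero, fI]
  simp only [List.append_assoc]

theorem app_num (w : List Bool) (s : List Bool) : app (num w) s = num (w ++ s) := by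
  rw [app, digits_num]

theorem gd_nil (l : ℕ) : gd P L w₀ l [] = fI 26 l (app (app 0 (str (JJ P L))) (digits w₀)) := by
  rw [gd, app_zero, app_num, fI, digits_num]
  simp only [List.map_nil, List.nil_append, strs_cons, Jl, str_inst', List.append_assoc]
  rfl

theorem gd_cons (l : ℕ) (e : Ent) (ρ : List Ent) : gd P L w₀ l (e :: ρ) =
    fI 29 e.z (fI 28 e.m (fI 27 e.v (fI 26 e.i
      (app (app 0 (str θ1)) (digits (gd P L w₀ l ρ)))))) := by
  rw [app_zero, app_num, fI, fI, fI, fI, gd, gd, digits_num, digits_num, digits_num, digits_num,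
    digits_num]
  simp only [List.map_cons, List.cons_append, strs_cons, Ent.ax, tr, str_inst', List.append_assoc]

theorem new_tr : ∀ c ∈ cl3 P b L, ClTr3 P κ b L w₀ c := by
  intro c hc
  unfold cl3 at hc
  rw [List.mem_append, List.mem_append, List.mem_append] at hc
  rcases hc with ((hc | hc) | hc) | hc
  · simp only [List.mem_cons, List.not_mem_nil, or_false] at hc
    rcases hc with rfl | rfl | rfl | rfl | rfl | rfl | rfl | rfl | rfl | rfl
    · intro v hv
      have h0 : v 0 = 0 := hv (.zero 0) (by simp)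
      have h1 := get3 P κ b L w₀ hv hd 0 1 (by simp)
      have h2 : v 3 = app (v 1) (rep (v 2)) := hv (o3 iRep 2 1 3) (by simp)
      have h3 := get3 P κ b L w₀ hv (tlx 26) 3 4 (by simp only [List.mem_cons, true_or, or_true])
      have h4 : v 6 = app (v 4) (digits (v 5)) := hv (o3 iCat 4 5 6) (by simp)
      show v 6 = fI 26 (v 2) (v 5)
      rw [fI_eq, h4, h3, h2, h1, h0]
    · intro v hv
      have h0 : v 0 = 0 := hv (.zero 0) (by simp)
      have h1 := get3 P κ b L w₀ hv hd 0 1 (by simp)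
      have h2 : v 3 = app (v 1) (rep (v 2)) := hv (o3 iRep 2 1 3) (by simp)
      have h3 := get3 P κ b L w₀ hv (tlx 27) 3 4 (by simp only [List.mem_cons, true_or, or_true])
      have h4 : v 6 = app (v 4) (digits (v 5)) := hv (o3 iCat 4 5 6) (by simp)
      show v 6 = fI 27 (v 2) (v 5)
      rw [fI_eq, h4, h3, h2, h1, h0]
    · intro v hv
      have h0 : v 0 = 0 := hv (.zero 0) (by simp)
      have h1 := get3 P κ b L w₀ hv hd 0 1 (by simp)
      have h2 : v 3 = app (v 1) (rep (v 2)) := hv (o3 iRep 2 1 3) (by simp)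
      have h3 := get3 P κ b L w₀ hv (tlx 28) 3 4 (by simp only [List.mem_cons, true_or, or_true])
      have h4 : v 6 = app (v 4) (digits (v 5)) := hv (o3 iCat 4 5 6) (by simp)
      show v 6 = fI 28 (v 2) (v 5)
      rw [fI_eq, h4, h3, h2, h1, h0]
    · intro v hv
      have h0 : v 0 = 0 := hv (.zero 0) (by simp)
      have h1 := get3 P κ b L w₀ hv hd 0 1 (by simp)
      have h2 : v 3 = app (v 1) (rep (v 2)) := hv (o3 iRep 2 1 3) (by simp)
      have h3 := get3 P κ b L w₀ hv (tlx 29) 3 4 (by simp only [List.mem_cons, true_or, or_true])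
      have h4 : v 6 = app (v 4) (digits (v 5)) := hv (o3 iCat 4 5 6) (by simp)
      show v 6 = fI 29 (v 2) (v 5)
      rw [fI_eq, h4, h3, h2, h1, h0]
    · intro v hv
      have h0 : v 0 = w₀ := hv (o1 iGB 0) (by simp)
      have h1 : v 1 = 0 := hv (.zero 1) (by simp)
      have h2 := get3 P κ b L w₀ hv (str (JJ P L)) 1 2
        (by simp only [List.mem_cons, true_or, or_true])
      have h3 : v 3 = app (v 2) (digits (v 0)) := hv (o3 iCat 2 0 3) (by simp)
      have h4 : v 5 = fI 26 (v 4) (v 3) := hv (o3 iI26 4 3 5) (by simp)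
      show ∃ ρ : List Ent, (∀ e ∈ ρ, Trust P b e.v e.i e.z) ∧ v 5 = gd P L w₀ (v 4) ρ
      refine ⟨[], by simp, ?_⟩
      rw [gd_nil, h4, h3, h2, h1, h0]
    · intro v hv
      have h0 : ∃ ρ : List Ent, (∀ e ∈ ρ, Trust P b e.v e.i e.z) ∧ v 1 = gd P L w₀ (v 0) ρ :=
        hv (o2 iGd 0 1) (by simp)
      have h1 : Trust P b (v 2) (v 3) (v 4) := hv (o3 iTr 2 3 4) (by simp)
      have h2 : v 5 = 0 := hv (.zero 5) (by simp)
      have h3 := get3 P κ b L w₀ hv (str θ1) 5 6 (by simp only [List.mem_cons, true_or, or_true])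
      have h4 : v 7 = app (v 6) (digits (v 1)) := hv (o3 iCat 6 1 7) (by simp)
      have h5 : v 8 = fI 26 (v 3) (v 7) := hv (o3 iI26 3 7 8) (by simp)
      have h6 : v 9 = fI 27 (v 2) (v 8) := hv (o3 iI27 2 8 9) (by simp)
      have h7 : v 11 = fI 28 (v 10) (v 9) := hv (o3 iI28 10 9 11) (by simp)
      have h8 : v 12 = fI 29 (v 4) (v 11) := hv (o3 iI29 4 11 12) (by simp)
      obtain ⟨ρ, hρ, h9⟩ := h0
      show ∃ ρ : List Ent, (∀ e ∈ ρ, Trust P b e.v e.i e.z) ∧ v 12 = gd P L w₀ (v 0) ρ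
      refine ⟨⟨v 2, v 3, v 10, v 4⟩ :: ρ, ?_, ?_⟩
      · intro e he
        rcases List.mem_cons.1 he with rfl | he
        · exact h1
        · exact hρ e he
      · rw [gd_cons, h8, h7, h6, h5, h4, h3, h2, h9]
    · intro v hv
      have h0 := (t3_K P κ b L w₀ b v 0).1 (hv (o1 (iK b) 0) (by simp))
      have h1 : v 2 = v 0 + v 1 := hv (.add 0 1 2) (by simp)
      have h2 : v 3 = v 2 + 1 := hv (.succ 2 3) (by simp)
      have h3 : v 5 = tw (v 4) (v 3) := hv (o3 iIt 4 3 5) (by simp)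
      have h4 : v 6 = tw (v 4) (v 2) := hv (o3 iIt 4 2 6) (by simp)
      show ∃ j, v 5 = tw j (b + v 1 + 1) ∧ v 6 = tw j (b + v 1)
      exact ⟨v 4, by rw [h3, h2, h1, h0], by rw [h4, h1, h0]⟩
    · intro v hv
      have h0 := (t3_K P κ b L w₀ b v 0).1 (hv (o1 (iK b) 0) (by simp))
      have h1 : v 2 = v 0 + v 1 := hv (.add 0 1 2) (by simp)
      have h2 : v 3 = v 2 + 1 := hv (.succ 2 3) (by simp)
      have h3 : v 5 = tw (v 4) (v 3) := hv (o3 iIt 4 3 5) (by simp)
      have h5 : v 6 = v 4 + 1 := hv (.succ 4 6) (by simp)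
      have h4 : v 7 = tw (v 6) (v 3) := hv (o3 iIt 6 3 7) (by simp)
      show ∃ j, v 5 = tw j (b + v 1 + 1) ∧ v 7 = tw (j + 1) (b + v 1 + 1)
      exact ⟨v 4, by rw [h3, h2, h1, h0], by rw [h4, h5, h2, h1, h0]⟩
    · intro v hv
      have h0 : Trust P b (v 0) (v 1) (v 2) := hv (o3 iTr 0 1 2) (by simp)
      have h1 : v 3 = fT P (v 2) := hv (o2 iD2 2 3) (by simp)
      obtain ⟨j, h2, h3⟩ : ∃ j, v 4 = tw j (b + v 1 + 1) ∧ v 5 = tw j (b + v 1) :=
        hv (o3 iPG 1 4 5) (by simp)
      have h4 : v 3 ≤ v 4 := hv (o2 iLe 3 4) (by simp)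
      have h5 : NoRef (v 0) (v 5) := hv (o2 iC 0 5) (by simp)
      show NoRef (v 3) (v 4)
      rw [h1, h2]
      exact h0 j (by rw [← h1, ← h2]; exact h4) (by rw [← h3]; exact h5)
    · intro v hv
      have h0 : v 1 = v 0 + 1 := hv (.succ 0 1) (by simp)
      have h1 : v 1 < v 2 := hv (o2 iLt 1 2) (by simp)
      show v 0 < v 2
      omega
  · exact cl3_old P κ b L w₀ (old_kCl b c hc) (tr_kCl P [] κ b c hc)
  · exact cl3_old P κ b L w₀ (old_kCl L c hc) (tr_kCl P [] κ L c hc)
  · obtain ⟨τ, -, h⟩ := List.mem_flatMap.1 hc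
    exact cl3_old P κ b L w₀ (old_appCl τ c h) (tr_appCl P [] κ τ c h)

end

/-- (W1) -/
theorem w1 : W1 := by
  intro hTree hAll hStr hNum P κ b L w₀ c hc
  unfold cls3 at hc
  rcases List.mem_append.1 hc with h | h
  · obtain ⟨h1, h2⟩ := clsB_tr hTree hAll hStr hNum P κ c h
    exact cl3_old P κ b L w₀ h2 h1
  · exact new_tr P κ b L w₀ c h

end Pool.Agent.T9h75.IP
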